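import Mathlib

set_option autoImplicit false

/-!
# Repeated obtuse angles in six dimensions

For every fixed obtuse angle `α` the maximum number `B 6 n α` of ordered triples `(X, Y, Z)` of
distinct points of an `n`-point set of `ℝ⁶` with `∠ X Y Z = α` is of order `n ^ 3`.
-/

open scoped EuclideanGeometry Real

namespace Pool.Agent.Results.MP_6251d3_co.ObtuseSixDim

/-- The number of ordered triples `(X, Y, Z)` of distinct points of `S` with `∠ X Y Z = α`. -/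
noncomputable def angleCount {k : ℕ} (S : Finset (EuclideanSpace ℝ (Fin k))) (α : ℝ) : ℕ :=
  Set.ncard {t : EuclideanSpace ℝ (Fin k) × EuclideanSpace ℝ (Fin k) × EuclideanSpace ℝ (Fin k) |
    t.1 ∈ S ∧ t.2.1 ∈ S ∧ t.2.2 ∈ S ∧ t.1 ≠ t.2.1 ∧ t.2.1 ≠ t.2.2 ∧ t.1 ≠ t.2.2 ∧
      EuclideanGeometry.angle t.1 t.2.1 t.2.2 = α}

/-- `B k n α`: the maximum of `angleCount S α` over all `n`-point sets `S` of `ℝᵏ`. -/
noncomputable def B (k n : ℕ) (α : ℝ) : ℕ :=
  sSup {c : ℕ | ∃ S : Finset (EuclideanSpace ℝ (Fin k)), S.card = n ∧ angleCount S α = c}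

/-- the set counted by `angleCount` -/
def tset {k : ℕ} (S : Finset (EuclideanSpace ℝ (Fin k))) (α : ℝ) :
    Set (EuclideanSpace ℝ (Fin k) × EuclideanSpace ℝ (Fin k) × EuclideanSpace ℝ (Fin k)) :=
  {t | t.1 ∈ S ∧ t.2.1 ∈ S ∧ t.2.2 ∈ S ∧ t.1 ≠ t.2.1 ∧ t.2.1 ≠ t.2.2 ∧ t.1 ≠ t.2.2 ∧
      EuclideanGeometry.angle t.1 t.2.1 t.2.2 = α}

lemma tset_subset {k : ℕ} (S : Finset (EuclideanSpace ℝ (Fin k))) (α : ℝ) :
    tset S α ⊆ (↑(S ×ˢ S ×ˢ S) : Set _) := by
  rintro ⟨x, y, z⟩ ⟨h1, h2, h3, -⟩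
  simp only [Finset.coe_product, Set.mem_prod, Finset.mem_coe]
  exact ⟨h1, h2, h3⟩

lemma angleCount_le {k : ℕ} (S : Finset (EuclideanSpace ℝ (Fin k))) (α : ℝ) :
    angleCount S α ≤ S.card ^ 3 := by
  have h := Set.ncard_le_ncard (tset_subset S α) (Finset.finite_toSet _)
  rw [Set.ncard_coe_finset] at h
  have : (S ×ˢ S ×ˢ S).card = S.card ^ 3 := by
    rw [Finset.card_product, Finset.card_product]; ring
  rw [this] at h
  exact h

lemma angleCount_mono {k : ℕ} {S T : Finset (EuclideanSpace ℝ (Fin k))} (h : S ⊆ T) (α : ℝ) :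
    angleCount S α ≤ angleCount T α := by
  have hsub : tset S α ⊆ tset T α := by
    rintro ⟨x, y, z⟩ ⟨h1, h2, h3, h4⟩
    exact ⟨h h1, h h2, h h3, h4⟩
  exact Set.ncard_le_ncard hsub ((Finset.finite_toSet _).subset (tset_subset T α))

lemma bddAbove_counts (k n : ℕ) (α : ℝ) :
    BddAbove {c : ℕ | ∃ S : Finset (EuclideanSpace ℝ (Fin k)), S.card = n ∧
      angleCount S α = c} := by
  refine ⟨n ^ 3, ?_⟩
  rintro c ⟨S, hS, rfl⟩
  rw [← hS]
  exact angleCount_le S α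

lemma le_B {k n : ℕ} {α : ℝ} (S : Finset (EuclideanSpace ℝ (Fin k))) (hS : S.card = n) :
    angleCount S α ≤ B k n α :=
  le_csSup (bddAbove_counts k n α) ⟨S, hS, rfl⟩

lemma B_le (k n : ℕ) (α : ℝ) : B k n α ≤ n ^ 3 := by
  by_cases hne : {c : ℕ | ∃ S : Finset (EuclideanSpace ℝ (Fin k)), S.card = n ∧
      angleCount S α = c}.Nonempty
  · refine csSup_le hne ?_
    rintro c ⟨S, hS, rfl⟩
    rw [← hS]
    exact angleCount_le S α
  · rw [Set.not_nonempty_iff_eq_empty] at hne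
    unfold B
    rw [hne]
    simp

/-! ### The construction -/

/-- points on the first circle -/
noncomputable def X (ρ a : ℝ) : EuclideanSpace ℝ (Fin 6) :=
  !₂[ρ * a, ρ * √(1 - a ^ 2), 0, 0, 1, 0]

/-- points on the second circle -/
noncomputable def Z (ρ a : ℝ) : EuclideanSpace ℝ (Fin 6) :=
  !₂[0, 0, ρ * a, ρ * √(1 - a ^ 2), -1, 0]

/-- points of the plane containing the centres -/
noncomputable def Y (s t : ℝ) : EuclideanSpace ℝ (Fin 6) :=
  !₂[0, 0, 0, 0, s, t]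

lemma norm_sq_XY {ρ a s t : ℝ} (ha : a ^ 2 ≤ 1) :
    ‖X ρ a - Y s t‖ ^ 2 = ρ ^ 2 + (1 - s) ^ 2 + t ^ 2 := by
  have h : √(1 - a ^ 2) ^ 2 = 1 - a ^ 2 := Real.sq_sqrt (by linarith)
  rw [EuclideanSpace.norm_sq_eq, Fin.sum_univ_six]
  simp only [X, Y, PiLp.sub_apply, Real.norm_eq_abs, sq_abs]
  simp [Fin.isValue]
  nlinarith [h]


lemma norm_sq_ZY {ρ a s t : ℝ} (ha : a ^ 2 ≤ 1) :
    ‖Z ρ a - Y s t‖ ^ 2 = ρ ^ 2 + (1 + s) ^ 2 + t ^ 2 := by
  have h : √(1 - a ^ 2) ^ 2 = 1 - a ^ 2 := Real.sq_sqrt (by linarith)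
  rw [EuclideanSpace.norm_sq_eq, Fin.sum_univ_six]
  simp only [Z, Y, PiLp.sub_apply, Real.norm_eq_abs, sq_abs]
  simp [Fin.isValue]
  nlinarith [h]

lemma inner_XYZ {ρ a b s t : ℝ} :
    inner ℝ (X ρ a - Y s t) (Z ρ b - Y s t) = s ^ 2 + t ^ 2 - 1 := by
  rw [PiLp.inner_apply, Fin.sum_univ_six]
  simp only [X, Z, Y, PiLp.sub_apply]
  simp [Fin.isValue]
  ring

lemma angle_XYZ {ρ a b s t α : ℝ} (ha : a ^ 2 ≤ 1) (hb : b ^ 2 ≤ 1) (h0 : 0 ≤ α) (hπ : α ≤ π)
    (hρ : 0 < ρ)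
    (h : s ^ 2 + t ^ 2 - 1 = Real.cos α * √((1 + s ^ 2 + t ^ 2 + ρ ^ 2) ^ 2 - 4 * s ^ 2)) :
    EuclideanGeometry.angle (X ρ a) (Y s t) (Z ρ b) = α := by
  unfold EuclideanGeometry.angle InnerProductGeometry.angle
  simp only [vsub_eq_sub]
  have hx := norm_sq_XY (ρ := ρ) (s := s) (t := t) ha
  have hz := norm_sq_ZY (ρ := ρ) (s := s) (t := t) hb
  have hx0 : 0 < ‖X ρ a - Y s t‖ := by
    have : 0 < ‖X ρ a - Y s t‖ ^ 2 := by rw [hx]; positivity
    exact lt_of_le_of_ne (norm_nonneg _) (sq_pos_iff.1 this).symm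
  have hz0 : 0 < ‖Z ρ b - Y s t‖ := by
    have : 0 < ‖Z ρ b - Y s t‖ ^ 2 := by rw [hz]; positivity
    exact lt_of_le_of_ne (norm_nonneg _) (sq_pos_iff.1 this).symm
  have hprod : ‖X ρ a - Y s t‖ * ‖Z ρ b - Y s t‖ =
      √((1 + s ^ 2 + t ^ 2 + ρ ^ 2) ^ 2 - 4 * s ^ 2) := by
    symm
    rw [Real.sqrt_eq_iff_mul_self_eq_of_pos (by positivity)]
    calc ‖X ρ a - Y s t‖ * ‖Z ρ b - Y s t‖ * (‖X ρ a - Y s t‖ * ‖Z ρ b - Y s t‖)
        = ‖X ρ a - Y s t‖ ^ 2 * ‖Z ρ b - Y s t‖ ^ 2 := by ring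
      _ = (1 + s ^ 2 + t ^ 2 + ρ ^ 2) ^ 2 - 4 * s ^ 2 := by rw [hx, hz]; ring
  rw [inner_XYZ, h, hprod]
  have hpos : 0 < √((1 + s ^ 2 + t ^ 2 + ρ ^ 2) ^ 2 - 4 * s ^ 2) := by
    rw [← hprod]; positivity
  rw [mul_div_assoc, div_self hpos.ne', mul_one]
  exact Real.arccos_cos h0 hπ

lemma exists_t {c ρ s : ℝ} (hc0 : 0 < c) (hc1 : c < 1) (hρ : ρ ^ 2 = (1 - c ^ 2) / 8)
    (hs0 : 0 ≤ s) (hs : s ≤ 1 / 2) :
    ∃ t : ℝ, s ^ 2 + t ^ 2 - 1 = (-c) * √((1 + s ^ 2 + t ^ 2 + ρ ^ 2) ^ 2 - 4 * s ^ 2) := by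
  let g : ℝ → ℝ := fun t => s ^ 2 + t ^ 2 - 1 + c * √((1 + s ^ 2 + t ^ 2 + ρ ^ 2) ^ 2 - 4 * s ^ 2)
  have hg : Continuous g := by fun_prop
  have hs2 : s ^ 2 ≤ 1 / 4 := by nlinarith
  have hc2 : c ^ 2 < 1 := by nlinarith
  have h0 : g 0 ≤ 0 := by
    have hsq : √((1 + s ^ 2 + 0 ^ 2 + ρ ^ 2) ^ 2 - 4 * s ^ 2) ≤ (1 - s ^ 2) / c := by
      apply Real.sqrt_le_iff.2
      refine ⟨div_nonneg (by linarith) hc0.le, ?_⟩
      rw [div_pow, le_div_iff₀ (by positivity), hρ]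
      have h1 : 0 < 1 - c ^ 2 := by linarith
      have h2 : 0 ≤ s ^ 2 := sq_nonneg s
      have h3 : 0 < c ^ 2 := by positivity
      generalize c ^ 2 = C at *
      generalize s ^ 2 = S at *
      have e1 : ((1 + S + 0 ^ 2 + (1 - C) / 8) ^ 2 - 4 * S) =
        (1 - S) ^ 2 + (1 - C) * ((1 + S) / 4 + (1 - C) / 64) := by ring
      rw [e1]
      have e2 : (1 + S) / 4 + (1 - C) / 64 ≤ 1 / 2 := by linarith
      have e3 : 9 / 16 ≤ (1 - S) ^ 2 := by nlinarith
      have e4 : (1 - C) * ((1 + S) / 4 + (1 - C) / 64) ≤ (1 - C) * (1 / 2) :=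
        mul_le_mul_of_nonneg_left e2 h1.le
      have e5 : ((1 - S) ^ 2 + (1 - C) * ((1 + S) / 4 + (1 - C) / 64)) * C ≤
          ((1 - S) ^ 2 + (1 - C) * (1 / 2)) * C :=
        mul_le_mul_of_nonneg_right (by linarith) h3.le
      refine e5.trans ?_
      nlinarith [mul_nonneg h1.le (sub_nonneg.2 e3), mul_pos h1 h3]
    have := mul_le_mul_of_nonneg_left hsq hc0.le
    rw [mul_div_cancel₀ _ hc0.ne'] at this
    simp only [g]
    linarith
  have h1 : 0 ≤ g 1 := by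
    have : 0 ≤ c * √((1 + s ^ 2 + 1 ^ 2 + ρ ^ 2) ^ 2 - 4 * s ^ 2) := by positivity
    simp only [g]
    nlinarith [sq_nonneg s]
  obtain ⟨t, -, ht⟩ := intermediate_value_Icc (zero_le_one' ℝ) hg.continuousOn ⟨h0, h1⟩
  refine ⟨t, ?_⟩
  simp only [g] at ht
  linarith

/-- the parameters of the points -/
noncomputable def par (i : ℕ) : ℝ := 1 / ((i : ℝ) + 2)

lemma par_pos (i : ℕ) : 0 < par i := by unfold par; positivity

lemma par_le (i : ℕ) : par i ≤ 1 / 2 := by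
  unfold par
  apply one_div_le_one_div_of_le (by norm_num)
  have : (0 : ℝ) ≤ i := Nat.cast_nonneg i
  linarith

lemma par_inj : Function.Injective par := by
  intro i j h
  unfold par at h
  have h1 : (i : ℝ) + 2 = j + 2 := by
    have := congrArg (fun x => x⁻¹) h
    simpa using this
  have : (i : ℝ) = j := by linarith
  exact_mod_cast this

lemma exists_config (m : ℕ) {α : ℝ} (h1 : π / 2 < α) (h2 : α < π) :
    ∃ S : Finset (EuclideanSpace ℝ (Fin 6)), S.card = 3 * m ∧ 2 * m ^ 3 ≤ angleCount S α := by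
  classical
  set c : ℝ := -Real.cos α with hc
  have hc0 : 0 < c := by
    have := Real.cos_neg_of_pi_div_two_lt_of_lt h1 (by linarith)
    linarith
  have hc1 : c < 1 := by
    have : Real.cos π < Real.cos α := Real.cos_lt_cos_of_nonneg_of_le_pi (by linarith [Real.pi_pos])
      le_rfl h2
    rw [Real.cos_pi] at this
    linarith
  set ρ : ℝ := √((1 - c ^ 2) / 8) with hρdef
  have hpos : 0 < (1 - c ^ 2) / 8 := by
    have : c ^ 2 < 1 := by nlinarith
    linarith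
  have hρ : ρ ^ 2 = (1 - c ^ 2) / 8 := Real.sq_sqrt hpos.le
  have hρ0 : 0 < ρ := Real.sqrt_pos.2 hpos
  have ht : ∀ i : ℕ, ∃ t : ℝ, (par i) ^ 2 + t ^ 2 - 1 =
      (-c) * √((1 + (par i) ^ 2 + t ^ 2 + ρ ^ 2) ^ 2 - 4 * (par i) ^ 2) := fun i =>
    exists_t hc0 hc1 hρ (par_pos i).le (par_le i)
  choose t ht using ht
  have hcc : -c = Real.cos α := by rw [hc]; ring
  have hpar1 : ∀ i, (par i) ^ 2 ≤ 1 := fun i => by
    nlinarith [par_pos i, par_le i]
  let x : ℕ → EuclideanSpace ℝ (Fin 6) := fun i => X ρ (par i)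
  let y : ℕ → EuclideanSpace ℝ (Fin 6) := fun i => Y (par i) (t i)
  let z : ℕ → EuclideanSpace ℝ (Fin 6) := fun i => Z ρ (par i)
  have hx0 : ∀ i, x i 0 = ρ * par i := fun i => by simp [x, X]
  have hy0 : ∀ i, y i 0 = 0 := fun i => by simp [y, Y]
  have hz0 : ∀ i, z i 0 = 0 := fun i => by simp [z, Z]
  have hy2 : ∀ i, y i 2 = 0 := fun i => by simp [y, Y]
  have hz2 : ∀ i, z i 2 = ρ * par i := fun i => by simp [z, Z]
  have hy4 : ∀ i, y i 4 = par i := fun i => by simp [y, Y]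
  have hxinj : Function.Injective x := by
    intro i j h
    have := congrArg (fun v => v 0) h
    simp only [hx0] at this
    exact par_inj (mul_left_cancel₀ hρ0.ne' this)
  have hyinj : Function.Injective y := by
    intro i j h
    have := congrArg (fun v => v 4) h
    simp only [hy4] at this
    exact par_inj this
  have hzinj : Function.Injective z := by
    intro i j h
    have := congrArg (fun v => v 2) h
    simp only [hz2] at this
    exact par_inj (mul_left_cancel₀ hρ0.ne' this)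
  have hxy : ∀ i j, x i ≠ y j := by
    intro i j h
    have := congrArg (fun v => v 0) h
    simp only [hx0, hy0] at this
    exact (mul_pos hρ0 (par_pos i)).ne' this
  have hxz : ∀ i j, x i ≠ z j := by
    intro i j h
    have := congrArg (fun v => v 0) h
    simp only [hx0, hz0] at this
    exact (mul_pos hρ0 (par_pos i)).ne' this
  have hyz : ∀ i j, y i ≠ z j := by
    intro i j h
    have := congrArg (fun v => v 2) h
    simp only [hy2, hz2] at this
    exact (mul_pos hρ0 (par_pos j)).ne this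
  have hang : ∀ i j k, EuclideanGeometry.angle (x i) (y j) (z k) = α := by
    intro i j k
    refine angle_XYZ (hpar1 i) (hpar1 k) (by linarith [Real.pi_pos]) h2.le hρ0 ?_
    rw [← hcc]
    exact ht j
  let SX := (Finset.range m).image x
  let SY := (Finset.range m).image y
  let SZ := (Finset.range m).image z
  have cX : SX.card = m := by
    simp only [SX]; rw [Finset.card_image_of_injective _ hxinj, Finset.card_range]
  have cY : SY.card = m := by
    simp only [SY]; rw [Finset.card_image_of_injective _ hyinj, Finset.card_range]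
  have cZ : SZ.card = m := by
    simp only [SZ]; rw [Finset.card_image_of_injective _ hzinj, Finset.card_range]
  have dXY : Disjoint SX SY := by
    rw [Finset.disjoint_left]
    intro v hv hv'
    simp only [SX, SY, Finset.mem_image] at hv hv'
    obtain ⟨i, -, rfl⟩ := hv
    obtain ⟨j, -, hj⟩ := hv'
    exact hxy i j hj.symm
  have dXYZ : Disjoint (SX ∪ SY) SZ := by
    rw [Finset.disjoint_left]
    intro v hv hv'
    simp only [SX, SY, SZ, Finset.mem_image, Finset.mem_union] at hv hv'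
    obtain ⟨k, -, hk⟩ := hv'
    rcases hv with ⟨i, -, rfl⟩ | ⟨i, -, rfl⟩
    · exact hxz i k hk.symm
    · exact hyz i k hk.symm
  refine ⟨SX ∪ SY ∪ SZ, ?_, ?_⟩
  · rw [Finset.card_union_of_disjoint dXYZ, Finset.card_union_of_disjoint dXY, cX, cY, cZ]
    ring
  · let A := SX ×ˢ SY ×ˢ SZ
    let B' := SZ ×ˢ SY ×ˢ SX
    have cA : A.card = m ^ 3 := by
      simp only [A]
      rw [Finset.card_product, Finset.card_product, cX, cY, cZ]; ring
    have cB : B'.card = m ^ 3 := by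
      simp only [B']
      rw [Finset.card_product, Finset.card_product, cX, cY, cZ]; ring
    have dAB : Disjoint A B' := by
      rw [Finset.disjoint_left]
      rintro ⟨u, v, w⟩ h h'
      simp only [A, B', Finset.mem_product] at h h'
      have hu : u ∈ SX ∪ SY := Finset.mem_union_left _ h.1
      exact (Finset.disjoint_left.1 dXYZ hu) h'.1
    have hsub : (↑(A ∪ B') : Set _) ⊆ tset (SX ∪ SY ∪ SZ) α := by
      rintro ⟨u, v, w⟩ h
      rw [Finset.mem_coe, Finset.mem_union] at h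
      rcases h with h | h
      · simp only [A, Finset.mem_product] at h
        obtain ⟨hu, hv, hw⟩ := h
        refine ⟨?_, ?_, ?_, ?_⟩
        · simp only [Finset.mem_union]; tauto
        · simp only [Finset.mem_union]; tauto
        · simp only [Finset.mem_union]; tauto
        · simp only [SX, SY, SZ, Finset.mem_image] at hu hv hw
          obtain ⟨i, -, rfl⟩ := hu
          obtain ⟨j, -, rfl⟩ := hv
          obtain ⟨k, -, rfl⟩ := hw
          exact ⟨hxy i j, hyz j k, hxz i k, hang i j k⟩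
      · simp only [B', Finset.mem_product] at h
        obtain ⟨hu, hv, hw⟩ := h
        refine ⟨?_, ?_, ?_, ?_⟩
        · simp only [Finset.mem_union]; tauto
        · simp only [Finset.mem_union]; tauto
        · simp only [Finset.mem_union]; tauto
        · simp only [SX, SY, SZ, Finset.mem_image] at hu hv hw
          obtain ⟨i, -, rfl⟩ := hu
          obtain ⟨j, -, rfl⟩ := hv
          obtain ⟨k, -, rfl⟩ := hw
          refine ⟨(hyz j i).symm, (hxy k j).symm, (hxz k i).symm, ?_⟩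
          simp only
          rw [EuclideanGeometry.angle_comm]
          exact hang k j i
    have h := Set.ncard_le_ncard hsub ((Finset.finite_toSet _).subset (tset_subset _ α))
    rw [Set.ncard_coe_finset, Finset.card_union_of_disjoint dAB, cA, cB] at h
    change 2 * m ^ 3 ≤ (tset (SX ∪ SY ∪ SZ) α).ncard
    linarith

lemma lower (m : ℕ) {α : ℝ} (h1 : π / 2 < α) (h2 : α < π) : 2 * m ^ 3 ≤ B 6 (3 * m) α := by
  obtain ⟨S, hS, h⟩ := exists_config m h1 h2
  exact h.trans (le_B S hS)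

lemma B_mono {n n' : ℕ} (h : n ≤ n') (α : ℝ) : B 6 n α ≤ B 6 n' α := by
  classical
  have : Infinite (EuclideanSpace ℝ (Fin 6)) :=
    Infinite.of_surjective (fun v : EuclideanSpace ℝ (Fin 6) => v 0) (fun a =>
      ⟨EuclideanSpace.single 0 a, by simp⟩)
  have hne : {c : ℕ | ∃ S : Finset (EuclideanSpace ℝ (Fin 6)), S.card = n ∧
      angleCount S α = c}.Nonempty := by
    obtain ⟨S, hS⟩ := Infinite.exists_subset_card_eq (EuclideanSpace ℝ (Fin 6)) n
    exact ⟨_, S, hS, rfl⟩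
  refine csSup_le hne ?_
  rintro c ⟨S, hS, rfl⟩
  obtain ⟨T, hST, hT⟩ := Infinite.exists_superset_card_eq S n' (by omega)
  exact (angleCount_mono hST α).trans (le_B T hT)

/-- For every obtuse angle `α`, the maximum number `B 6 n α` of ordered triples of distinct points
of an `n`-point set in `ℝ⁶` that form the angle `α` is of order `n ^ 3`. -/
theorem result (α : ℝ) (h1 : π / 2 < α) (h2 : α < π) :
    (∀ m : ℕ, 2 * m ^ 3 ≤ B 6 (3 * m) α) ∧
    ∃ c : ℝ, 0 < c ∧ ∀ n : ℕ, 3 ≤ n → c * (n : ℝ) ^ 3 ≤ B 6 n α ∧ (B 6 n α : ℝ) ≤ (n : ℝ) ^ 3 := by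
  refine ⟨fun m => lower m h1 h2, 1 / 108, by norm_num, fun n hn => ⟨?_, ?_⟩⟩
  · have ha : 3 * (n / 3) ≤ n := Nat.mul_div_le n 3
    have hb : n ≤ 6 * (n / 3) := by omega
    have hc : 2 * (n / 3) ^ 3 ≤ B 6 n α := (lower (n / 3) h1 h2).trans (B_mono ha α)
    have hc' : (2 : ℝ) * ((n / 3 : ℕ) : ℝ) ^ 3 ≤ B 6 n α := by exact_mod_cast hc
    have hb' : (n : ℝ) ≤ 6 * ((n / 3 : ℕ) : ℝ) := by exact_mod_cast hb
    have hb'' : (n : ℝ) ^ 3 ≤ (6 * ((n / 3 : ℕ) : ℝ)) ^ 3 :=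
      pow_le_pow_left₀ (Nat.cast_nonneg n) hb' 3
    nlinarith
  · exact_mod_cast B_le 6 n α

end Pool.Agent.Results.MP_6251d3_co.ObtuseSixDim
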